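import Pool.Agent.N869.GK.StmM
import Pool.Agent.N701.GK.SMALL

/-! Project GK (helper869), GK/M-SMALLM (helper221, port of the file of helper701): the decorations of
the small primes, data for every copy. -/

set_option autoImplicit false

open scoped Classical

namespace Pool.Agent.N221.GK

open Finset Pool.Agent.N869.GK
open Pool.Agent.N869.QT.L (prs ext Lc Fam)
open Pool.Agent.N701.GK (om_add_left om_add_right om_zero_left om_zero_right om_smul_right om_sum_right
  V_self Dc_self z_self row_erase row_k0 F_split mem_Sp mem_PZ om_quad bb_zero sn_add)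

section ex_

variable {r : ℕ} {U J I Q ι : Type} [Fintype U] [Fintype J] [LinearOrder J] [Fintype ι]

/-- the change of one vertex with the label zero -/
theorem F_diff (D D₀ : Par r) (W : I → Finset U) (E : I → Finset Q) (g : J → Q) (lU : U → Gr r)
    (lJ : J → Gr r) (A : U → U → ZMod 2) (B : U → J → ZMod 2) (a : I) {k : J} (hk : g k ∈ E a)
    (hl : lJ k = 0) (s : Fin 2 → Gr r) (v w v' w' : U ⊕ J → V)
    (hv : ∀ i, i ≠ Sum.inr k → v' i = v i) (hw : ∀ i, i ≠ Sum.inr k → w' i = w i) :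
    ∑ i ∈ TT W E g a, om (w' i) (row D (Sum.elim lU lJ) (Nm D₀ lU lJ A B 0) (TT W E g a) s v' i) +
      ∑ i ∈ TT W E g a, om (w i) (row D (Sum.elim lU lJ) (Nm D₀ lU lJ A B 0) (TT W E g a) s v i) =
    ∑ u ∈ W a, B u k * (om (w' (.inr k) + w (.inl u)) (v' (.inr k) + v (.inl u)) +
      om (w (.inr k) + w (.inl u)) (v (.inr k) + v (.inl u))) := by
  have hdot : dot D₀.em (lJ k) = 0 := by
    rw [hl]
    unfold dot
    simp
  have hext1 : ∀ l, Nm D₀ lU lJ A B 0 (.inr k) (.inr l) = 0 := by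
    intro l
    unfold Nm Pool.Agent.N869.QT.L.ext
    dsimp only
    split_ifs
    · rfl
    · rw [hdot, zero_mul]
      rfl
    · rfl
  have hext2 : ∀ l, Nm D₀ lU lJ A B 0 (.inr l) (.inr k) = 0 := by
    intro l
    unfold Nm Pool.Agent.N869.QT.L.ext
    dsimp only
    split_ifs
    · rfl
    · rw [hdot, mul_zero]
      rfl
    · rfl
  have hmem : (Sum.inr k : U ⊕ J) ∈ TT W E g a := by
    unfold TT Lc
    rw [Finset.inr_mem_disjSum, Finset.mem_filter]
    exact ⟨Finset.mem_univ _, hk⟩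
  have hN : ∀ i ∈ TT W E g a, i ≠ Sum.inr k →
      Nm D₀ lU lJ A B 0 i (.inr k) = Nm D₀ lU lJ A B 0 (.inr k) i := by
    rintro (u | l) _ _
    · show B u k + dot D₀.em (lU u) * dot D₀.em (lJ k) = B u k
      rw [hdot, mul_zero, add_zero]
    · rw [hext1, hext2]
  have hsum : ∀ f : U ⊕ J → ZMod 2,
      ∑ j ∈ TT W E g a, Nm D₀ lU lJ A B 0 (.inr k) j * f j = ∑ u ∈ W a, B u k * f (.inl u) := by
    intro f
    unfold TT
    rw [Finset.sum_disjSum]
    have h1 : ∑ l ∈ Lc E g a, Nm D₀ lU lJ A B 0 (.inr k) (.inr l) * f (.inr l) = 0 :=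
      Finset.sum_eq_zero fun l _ => by
        rw [hext1, zero_mul]
    rw [h1, add_zero]
    rfl
  rw [F_split D (Sum.elim lU lJ) (Nm D₀ lU lJ A B 0) hmem hl hN s v' w',
    F_split D (Sum.elim lU lJ) (Nm D₀ lU lJ A B 0) hmem hl hN s v w,
    hsum fun j => om (w' (.inr k) + w' j) (v' (.inr k) + v' j),
    hsum fun j => om (w (.inr k) + w j) (v (.inr k) + v j)]
  have h3 : ∑ i ∈ (TT W E g a).erase (.inr k),
      om (w' i) (row D (Sum.elim lU lJ) (Nm D₀ lU lJ A B 0) ((TT W E g a).erase (.inr k)) s v' i) =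
      ∑ i ∈ (TT W E g a).erase (.inr k),
      om (w i) (row D (Sum.elim lU lJ) (Nm D₀ lU lJ A B 0) ((TT W E g a).erase (.inr k)) s v i) := by
    refine Finset.sum_congr rfl fun i hi => ?_
    rw [hw i (Finset.ne_of_mem_erase hi)]
    congr 1
    funext c
    unfold row
    rw [hv i (Finset.ne_of_mem_erase hi)]
    congr 2
    refine Finset.sum_congr rfl fun j hj => ?_
    rw [hv j (Finset.ne_of_mem_erase hj)]
  rw [h3]
  have h4 : ∀ p q t : ZMod 2, p + t + (q + t) = p + q := by
    intro p q t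
    linear_combination z_self t
  rw [h4, ← Finset.sum_add_distrib]
  refine Finset.sum_congr rfl fun u _ => ?_
  rw [hw (.inl u) Sum.inl_ne_inr, hv (.inl u) Sum.inl_ne_inr]
  ring

theorem Ex_diff (D : ι → Par r) (D₀ : Par r) (W : I → Finset U) (E : I → Finset Q) (g : J → Q) (c : ι → I)
    (lU : U → Gr r) (lJ : J → Gr r) (A : U → U → ZMod 2) (B : U → J → ZMod 2) (a : I) {k : J}
    (hk : g k ∈ E a) (hl : lJ k = 0) (s : ι → Fin 2 → Gr r) (Z Z' : U ⊕ J → Dc ι) (η : Dc ι)
    (hη : ∀ x, c x ≠ a → η x = 0) (hZ : ∀ i, i ≠ Sum.inr k → Z' i = Z i)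
    (hZk : Z' (.inr k) = Z (.inr k) + η) :
    M.Ex D (Sum.elim lU lJ) (Nm D₀ lU lJ A B 0) (fun x => TT W E g (c x)) s Z' +
      M.Ex D (Sum.elim lU lJ) (Nm D₀ lU lJ A B 0) (fun x => TT W E g (c x)) s Z =
    ∑ u ∈ W a, B u k * ∑ x ∈ cp c a,
      (om ((Z (.inr k) x).2 + (Z (.inl u) x).2) (η x).1 +
        om (η x).2 ((Z (.inr k) x).1 + (Z (.inl u) x).1) + om (η x).2 (η x).1) := by
  unfold M.Ex
  rw [← Finset.sum_add_distrib]
  have hx : ∀ x, (∑ i ∈ TT W E g (c x), om (Z' i x).2 (row (D x) (Sum.elim lU lJ)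
      (Nm D₀ lU lJ A B 0) (TT W E g (c x)) (s x) (fun j => (Z' j x).1) i) +
      ∑ i ∈ TT W E g (c x), om (Z i x).2 (row (D x) (Sum.elim lU lJ)
      (Nm D₀ lU lJ A B 0) (TT W E g (c x)) (s x) (fun j => (Z j x).1) i)) =
      if c x = a then ∑ u ∈ W a, B u k * (om ((Z (.inr k) x).2 + (Z (.inl u) x).2) (η x).1 +
        om (η x).2 ((Z (.inr k) x).1 + (Z (.inl u) x).1) + om (η x).2 (η x).1) else 0 := by
    intro x
    by_cases hxa : c x = a
    · rw [if_pos hxa, hxa]
      rw [F_diff (D x) D₀ W E g lU lJ A B a hk hl (s x) (fun j => (Z j x).1) (fun j => (Z j x).2)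
        (fun j => (Z' j x).1) (fun j => (Z' j x).2) (fun i hi => by rw [hZ i hi])
        (fun i hi => by rw [hZ i hi])]
      refine Finset.sum_congr rfl fun u _ => ?_
      congr 1
      rw [hZk]
      have e1 : ((Z (Sum.inr k) + η) x).1 = (Z (Sum.inr k) x).1 + (η x).1 := rfl
      have e2 : ((Z (Sum.inr k) + η) x).2 = (Z (Sum.inr k) x).2 + (η x).2 := rfl
      rw [e1, e2]
      simp only [om_add_left, om_add_right]
      linear_combination z_self (om (Z (Sum.inr k) x).2 (Z (Sum.inr k) x).1) +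
        z_self (om (Z (Sum.inr k) x).2 (Z (Sum.inl u) x).1) +
        z_self (om (Z (Sum.inl u) x).2 (Z (Sum.inr k) x).1) +
        z_self (om (Z (Sum.inl u) x).2 (Z (Sum.inl u) x).1)
    · rw [if_neg hxa]
      have h1 : ∀ i, Z' i x = Z i x := by
        intro i
        by_cases hi : i = .inr k
        · rw [hi, hZk]
          show Z (Sum.inr k) x + η x = _
          rw [hη x hxa, add_zero]
        · rw [hZ i hi]
      simp only [h1]
      exact z_self _
  rw [Finset.sum_congr rfl fun x _ => hx x, ← Finset.sum_filter]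
  simp only [Finset.mul_sum]
  rw [Finset.sum_comm]
  unfold cp
  rfl

end ex_

/-- GK/M-SMALLM -/
theorem t_SMALLM : Pool.Agent.N869.GK.M.S_SMALLM := by
  intro hUNL r D₀ K U J I Q ι _ _ _ _ _ _ D W E g c lU lJ A B hFam hHyp Y hY s ζU hζU hex
  obtain ⟨u0, hu0⟩ := hex
  obtain ⟨a, hua, hna⟩ : ∃ a, u0 ∈ W a ∧ rs c a (ζU u0) ∉ Y a := by
    by_contra hcon
    push Not at hcon
    apply hu0
    rw [mem_PZ]
    refine ⟨fun x hx => mem_Sp.1 (hζU u0) x ?_, hcon⟩
    intro h1
    exact hx (Finset.mem_filter.1 h1).2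
  obtain ⟨h1, h2, h3⟩ := (hUNL ι (cp c a)).2 (Y a) (hY a)
  have hmcp : ∀ x, x ∈ cp c a ↔ c x = a := by
    intro x
    unfold cp
    rw [Finset.mem_filter]
    exact ⟨fun h => h.2, fun h => ⟨Finset.mem_univ _, h⟩⟩
  have hYS : ∀ z ∈ Y a, ∀ x, c x ≠ a → z x = 0 := fun z hz x hx =>
    mem_Sp.1 ((hY a).1 hz) x fun h => hx ((hmcp x).1 h)
  obtain ⟨z0, hz0⟩ : (Y a).Nonempty := by
    rw [← Finset.card_pos, (hY a).2.1]
    positivity
  have hrs : ∀ (ζ : Dc ι) (x : ι), x ∈ cp c a → rs c a ζ x = ζ x := by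
    intro ζ x hx
    unfold rs
    rw [if_pos ((hmcp x).1 hx)]
  have hrs0 : ∀ (ζ : Dc ι) (x : ι), c x ≠ a → rs c a ζ x = 0 := by
    intro ζ x hx
    unfold rs
    rw [if_neg hx]
  obtain ⟨z1, hz1, z2, hz2, h12⟩ : ∃ z1 ∈ Y a, ∃ z2 ∈ Y a,
      ∑ x ∈ cp c a, (om ((z1 x).2 + (z2 x).2) ((z0 + rs c a (ζU u0)) x).1 +
        om ((z0 + rs c a (ζU u0)) x).2 ((z1 x).1 + (z2 x).1)) ≠ 0 := by
    by_contra hcon
    push Not at hcon
    apply hna
    have h4 := h3 (z0 + rs c a (ζU u0)) (mem_Sp.2 fun x hx => by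
      have hx' : c x ≠ a := fun h => hx ((hmcp x).2 h)
      show z0 x + rs c a (ζU u0) x = 0
      rw [hYS z0 hz0 x hx', hrs0 _ x hx', add_zero]) hcon z0 hz0
    rwa [← add_assoc, Dc_self, zero_add] at h4
  set η : Dc ι := z1 + z2 with hη
  have hη0 : ∀ x, c x ≠ a → η x = 0 := by
    intro x hx
    show z1 x + z2 x = 0
    rw [hYS z1 hz1 x hx, hYS z2 hz2 x hx, add_zero]
  let w : U → ZMod 2 := fun u => if u ∈ W a then ∑ x ∈ cp c a,
    (om (η x).2 ((z0 x).1 + (ζU u x).1) + om ((z0 x).2 + (ζU u x).2) (η x).1) else 0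
  have hw0 : w u0 ≠ 0 := by
    show (if u0 ∈ W a then _ else _) ≠ _
    rw [if_pos hua]
    intro h4
    apply h12
    rw [← h4]
    refine Finset.sum_congr rfl fun x hx => ?_
    have e1 : (z0 + rs c a (ζU u0)) x = z0 x + ζU u0 x := by
      show z0 x + rs c a (ζU u0) x = _
      rw [hrs _ x hx]
    rw [e1]
    rfl
  obtain ⟨q, hq⟩ := hFam.ne a
  obtain ⟨k, hgk, hlk, hsum⟩ := hHyp.nd q w ⟨u0, hw0⟩
  have hk : g k ∈ E a := by rw [hgk]; exact hq
  -- the difference of the exponents
  have hdiff : ∀ ζ : J → Dc ι, rs c a (ζ k) ∈ Y a →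
      M.Ex D (Sum.elim lU lJ) (Nm D₀ lU lJ A B 0) (fun x => TT W E g (c x)) s
          (Sum.elim ζU (Function.update ζ k (ζ k + η))) +
        M.Ex D (Sum.elim lU lJ) (Nm D₀ lU lJ A B 0) (fun x => TT W E g (c x)) s (Sum.elim ζU ζ) ≠ 0 := by
    intro ζ hζ
    rw [Ex_diff D D₀ W E g c lU lJ A B a hk hlk s (Sum.elim ζU ζ)
      (Sum.elim ζU (Function.update ζ k (ζ k + η))) η hη0 ?_ ?_]
    · have e1 : ∀ u, ∑ x ∈ cp c a,
          (om ((Sum.elim ζU ζ (.inr k) x).2 + (Sum.elim ζU ζ (.inl u) x).2) (η x).1 +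
          om (η x).2 ((Sum.elim ζU ζ (.inr k) x).1 + (Sum.elim ζU ζ (.inl u) x).1) +
          om (η x).2 (η x).1) = ∑ x ∈ cp c a,
          (om (η x).2 ((z0 x).1 + (ζU u x).1) + om ((z0 x).2 + (ζU u x).2) (η x).1) := by
        intro u
        have b1 := bb_zero (hY a) h1 hz1 hz2 hζ hz0
        have b2 : Qs (cp c a) z1 z2 = 0 := (hY a).2.2 _ hz1 _ hz2
        have b3 : ∑ x ∈ cp c a, om (η x).2 (η x).1 = 0 := b2
        have b4 : ∑ x ∈ cp c a, (om (η x).2 ((ζ k x).1 + (z0 x).1) +
            om ((ζ k x).2 + (z0 x).2) (η x).1) = 0 := by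
          rw [← b1]
          refine Finset.sum_congr rfl fun x hx => ?_
          rw [hrs _ x hx]
        have b5 : ∑ x ∈ cp c a,
            (om ((Sum.elim ζU ζ (.inr k) x).2 + (Sum.elim ζU ζ (.inl u) x).2) (η x).1 +
            om (η x).2 ((Sum.elim ζU ζ (.inr k) x).1 + (Sum.elim ζU ζ (.inl u) x).1) +
            om (η x).2 (η x).1) = ∑ x ∈ cp c a,
            (om (η x).2 ((z0 x).1 + (ζU u x).1) + om ((z0 x).2 + (ζU u x).2) (η x).1) +
            ∑ x ∈ cp c a, (om (η x).2 ((ζ k x).1 + (z0 x).1) +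
              om ((ζ k x).2 + (z0 x).2) (η x).1) + ∑ x ∈ cp c a, om (η x).2 (η x).1 := by
          rw [← Finset.sum_add_distrib, ← Finset.sum_add_distrib]
          refine Finset.sum_congr rfl fun x _ => ?_
          simp only [Sum.elim_inl, Sum.elim_inr, om_add_left, om_add_right]
          linear_combination -z_self (om (η x).2 (z0 x).1) - z_self (om (z0 x).2 (η x).1)
        rw [b5, b4, b3, add_zero, add_zero]
      intro h4
      apply hsum
      rw [← h4]
      simp only [e1]
      rw [← Finset.sum_filter_add_sum_filter_not univ (fun u => u ∈ W a)]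
      have e2 : ∑ u ∈ univ.filter (fun u => ¬ u ∈ W a), w u * B u k = 0 := by
        refine Finset.sum_eq_zero fun u hu => ?_
        have e3 : w u = 0 := if_neg (Finset.mem_filter.1 hu).2
        rw [e3, zero_mul]
      rw [e2, add_zero, Finset.filter_mem_eq_inter, Finset.univ_inter]
      refine Finset.sum_congr rfl fun u hu => ?_
      have e3 : w u = ∑ x ∈ cp c a,
        (om (η x).2 ((z0 x).1 + (ζU u x).1) + om ((z0 x).2 + (ζU u x).2) (η x).1) := if_pos hu
      rw [e3, mul_comm]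
    · rintro (u | l) hi
      · rfl
      · have hlk' : l ≠ k := fun h => hi (by rw [h])
        show Function.update ζ k (ζ k + η) l = ζ l
        rw [Function.update_of_ne hlk']
    · show Function.update ζ k (ζ k + η) k = ζ k + η
      rw [Function.update_self]
  -- the involution
  refine Finset.sum_involution (fun ζ _ => Function.update ζ k (ζ k + η)) ?_ ?_ ?_ ?_
  · intro ζ hζ
    rw [Finset.mem_filter, Fintype.mem_piFinset] at hζ
    have h4 := hζ.1 k
    rw [mem_PZ] at h4
    exact sn_add (hdiff ζ (h4.2 a hk))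
  · intro ζ hζ hne h4
    rw [Finset.mem_filter, Fintype.mem_piFinset] at hζ
    have h5 := hζ.1 k
    rw [mem_PZ] at h5
    have h6 := hdiff ζ (h5.2 a hk)
    rw [h4] at h6
    exact h6 (z_self _)
  · intro ζ hζ
    rw [Finset.mem_filter, Fintype.mem_piFinset] at hζ ⊢
    refine ⟨fun l => ?_, fun x => ?_⟩
    · by_cases hl : l = k
      · subst hl
        rw [Function.update_self]
        have h5 := hζ.1 l
        rw [mem_PZ] at h5 ⊢
        refine ⟨fun x hx => ?_, fun b hb => ?_⟩
        · show ζ l x + η x = 0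
          rw [h5.1 x hx, zero_add]
          apply hη0
          intro h6
          apply hx
          rw [h6]
          exact hk
        · by_cases hba : b = a
          · subst hba
            have h6 : rs c b (ζ l + η) = rs c b (ζ l) + z1 + z2 := by
              funext x
              show rs c b (ζ l + η) x = rs c b (ζ l) x + z1 x + z2 x
              by_cases hx : c x = b
              · rw [hrs _ x ((hmcp x).2 hx), hrs _ x ((hmcp x).2 hx), add_assoc]
                rfl
              · rw [hrs0 _ x hx, hrs0 _ x hx, hYS z1 hz1 x hx, hYS z2 hz2 x hx, add_zero, add_zero]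
            rw [h6]
            exact h1 _ (h5.2 b hb) _ hz1 _ hz2
          · have h6 : rs c b (ζ l + η) = rs c b (ζ l) := by
              funext x
              unfold rs
              by_cases hx : c x = b
              · rw [if_pos hx, if_pos hx]
                show ζ l x + η x = ζ l x
                rw [hη0 x (fun h => hba (hx.symm.trans h)), add_zero]
              · rw [if_neg hx, if_neg hx]
            rw [h6]
            exact h5.2 b hb
      · rw [Function.update_of_ne hl]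
        exact hζ.1 l
    · have h5 := hζ.2 x
      unfold Xl at h5 ⊢
      convert h5 using 2
      funext b
      refine Finset.sum_congr rfl fun i _ => ?_
      rcases i with u | l
      · rfl
      · by_cases hl : l = k
        · subst hl
          show _ • lJ l = _ • lJ l
          rw [hlk, smul_zero, smul_zero]
        · show ((Function.update ζ k (ζ k + η) l) x).1 b • _ = _
          rw [Function.update_of_ne hl]
          rfl
  · intro ζ hζ
    show Function.update (Function.update ζ k (ζ k + η)) k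
      (Function.update ζ k (ζ k + η) k + η) = ζ
    rw [Function.update_idem, Function.update_self, add_assoc, Dc_self, add_zero,
      Function.update_eq_self]

end Pool.Agent.N221.GK
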